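import Pool.Agent.Run7.h161.Fin

/-!
# Contracting groups of tree automorphisms
-/

set_option autoImplicit false

namespace Pool.Agent.Results.MP_f568ce_al.ContractingGroups

open Run7.h161

/-- Let `X` be a finite alphabet and `H` an infinite group of automorphisms of the rooted tree of
words over `X` which is locally contracting: for every finite subset `S` of `H` there is a finite set
`N` such that for every element `g` of the subgroup generated by `S` the sections of `g` at all words
of length at least some `n` (depending on `g`) are in `N`. Then `H` has an infinite abelian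
subgroup. -/
theorem result (X : Type) [Finite X] (H : Subgroup (Equiv.Perm (List X)))
    (hT : ∀ h ∈ H, IsAut h) (hinf : Infinite H)
    (hc : ∀ S : Finset (Equiv.Perm (List X)), (∀ s ∈ S, s ∈ H) →
      ∃ N : Set (List X → List X), N.Finite ∧
        ∀ g ∈ Subgroup.closure (S : Set (Equiv.Perm (List X))),
          ∃ n : ℕ, ∀ v : List X, n ≤ v.length → ∃ f ∈ N, SecAt g v f) :
    ∃ A : Subgroup (Equiv.Perm (List X)), A ≤ H ∧ (∀ a ∈ A, ∀ b ∈ A, a * b = b * a) ∧
      Infinite A :=
  contr_main H hT hinf hc

end Pool.Agent.Results.MP_f568ce_al.ContractingGroups
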