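import Pool.Agent.Run7.h161.Fin

/-!
# Groups of tree automorphisms of polynomial activity or of finite rank
-/

set_option autoImplicit false

namespace Pool.Agent.Results.MP_f568ce_al.PolynomialActivityGroups

open Run7.h161

/-- Let `X` be a finite alphabet and `H` an infinite group of automorphisms of the rooted tree of
words over `X`, each element of which has finite rank, or is finite-state with polynomially growing
activity. Then `H` has an infinite abelian subgroup. -/
theorem result (X : Type) [Finite X] (H : Subgroup (Equiv.Perm (List X)))
    (hT : ∀ h ∈ H, IsAut h) (hinf : Infinite H)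
    (hr : ∀ h ∈ H, (∃ n, Rk n h) ∨ (FinState h ∧ PolyAct h)) :
    ∃ A : Subgroup (Equiv.Perm (List X)), A ≤ H ∧ (∀ a ∈ A, ∀ b ∈ A, a * b = b * a) ∧
      Infinite A :=
  rank_main H hT hinf hr

end Pool.Agent.Results.MP_f568ce_al.PolynomialActivityGroups
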