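import Pool.Agent.Run7.h161.TransFin

/-!
# Groups of tree automorphisms whose orbits grow faster than the activity
-/

set_option autoImplicit false

namespace Pool.Agent.Results.MP_f568ce_al.SparseActivityGroups

open Run7.h161

/-- Let `X` be a finite nonempty alphabet and `G` a group of automorphisms of the rooted tree of
words over `X`. Let `τ > 1` be such that the orbits of `G` on the words of length `n` have at least
`δ τ ^ n` elements (for `τ` the number of letters and `δ = 1` this says that `G` is transitive on
every level). Suppose that for every `g` in `G` the number of words of length `n` with nontrivial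
section of `g` is at most `C θ ^ n`, where `θ < τ`, or, if `τ` is at least the number of letters, that
`g` has finitely many sections and every section of `g` has a trivial section. Then `G` has an
infinite abelian subgroup. -/
theorem result (X : Type) [Finite X] [Nonempty X] (G : Subgroup (Equiv.Perm (List X)))
    (hT : ∀ g ∈ G, IsAut g) (δ τ : ℝ) (hδ : 0 < δ) (hτ : 1 < τ)
    (horb : ∀ v : List X, δ * τ ^ v.length ≤ ({w | ∃ g ∈ G, g v = w}.ncard : ℝ))
    (hact : ∀ g ∈ G, (∃ C θ : ℝ, 0 < θ ∧ θ < τ ∧ ∀ n : ℕ,
        ({v : List X | v.length = n ∧ ¬ SecAt g v id}.ncard : ℝ) ≤ C * θ ^ n) ∨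
      ((Nat.card X : ℝ) ≤ τ ∧ FinState g ∧ ∀ v, ∃ w, SecAt g (v ++ w) id)) :
    ∃ A : Subgroup (Equiv.Perm (List X)), A ≤ G ∧ (∀ a ∈ A, ∀ b ∈ A, a * b = b * a) ∧
      Infinite A :=
  trans_main G hT δ τ hδ hτ horb hact

end Pool.Agent.Results.MP_f568ce_al.SparseActivityGroups
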